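import Pool.Agent.Y920.QB.Qs

/-!
# QB-A2: the linear data of a subgroup with values in one group of quaternions (helper362)
-/

set_option autoImplicit false

namespace Pool.Agent.Y362.QB

open Pool.Agent.H315R3.ETC Pool.Agent.Y920.QB Module

section basic

variable {S : QData} (hS : IsQuat S)

include hS

lemma q_one (a : S.G) : S.q a 1 = S.zero := by
  have h := (hS.qs3 a 1 1).1 rfl
  rwa [mul_one] at h

lemma one_q (a : S.G) : S.q 1 a = S.zero := by rw [hS.qs2, q_one hS]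

lemma q_mul_zero {a b c : S.G} (hb : S.q a b = S.zero) (hc : S.q a c = S.zero) :
    S.q a (b * c) = S.zero := (hS.qs3 a b c).1 (hb.trans hc.symm)

lemma inv_eq (a : S.G) : a⁻¹ = a := inv_eq_of_mul_eq_one_left (hS.exp2 a)

/-- the value of a product depends only on the values -/
lemma q_mul_congr {a b b' c c' : S.G} (hb : S.q a b = S.q a b') (hc : S.q a c = S.q a c') :
    S.q a (b * c) = S.q a (b' * c') := by
  have h1 := (hS.qs3 a b b').1 hb
  have h2 := (hS.qs3 a c c').1 hc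
  have h3 := q_mul_zero hS h1 h2
  rw [mul_mul_mul_comm] at h3
  exact (hS.qs3 a _ _).2 h3

end basic

/-- the radical -/
def Rad {S : QData} (hS : IsQuat S) : Subgroup S.G where
  carrier := {r | ∀ b, S.q r b = S.zero}
  mul_mem' := by
    intro r r' hr hr' b
    rw [hS.qs2]
    refine q_mul_zero hS ?_ ?_
    · rw [hS.qs2]
      exact hr b
    · rw [hS.qs2]
      exact hr' b
  one_mem' := fun b => one_q hS b
  inv_mem' := by
    intro r hr
    rw [inv_eq hS]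
    exact hr

/-- the kernel of `q a` -/
def Dd {S : QData} (hS : IsQuat S) (a : S.G) : Subgroup S.G where
  carrier := {b | S.q a b = S.zero}
  mul_mem' := fun hb hc => q_mul_zero hS hb hc
  one_mem' := q_one hS a
  inv_mem' := by
    intro r hr
    rw [inv_eq hS]
    exact hr

lemma mem_Rad {S : QData} (hS : IsQuat S) {r : S.G} : r ∈ Rad hS ↔ ∀ b, S.q r b = S.zero :=
  Iff.rfl

lemma mem_Dd {S : QData} (hS : IsQuat S) {a b : S.G} : b ∈ Dd hS a ↔ S.q a b = S.zero :=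
  Iff.rfl

/-- the form -/
theorem form {S : QData} (hS : IsQuat S) (U : Subgroup S.G) (a : S.G)
    (hU : ∀ u ∈ U, SubVal S u a) (hw : ∀ x, ∃ w ∈ U, SubVal S a w ∧ IndVal S w x)
    (V K : Type) [AddCommGroup V] [Module (ZMod 2) V] [AddCommGroup K] [Module (ZMod 2) K]
    (φ : S.G → V) (hφs : Function.Surjective φ) (hφa : ∀ x y, φ (x * y) = φ x + φ y)
    (hφ0 : ∀ x, φ x = 0 ↔ ∀ y, S.q x y = S.zero)
    (p : S.G → K) (hps : Function.Surjective p) (hpa : ∀ x y, p (x * y) = p x + p y)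
    (ψ : K → S.Q) (hψ : ∀ y, ψ (p y) = S.q a y) (hψi : Function.Injective ψ)
    (hψ0 : ψ 0 = S.zero)
    (W : Submodule (ZMod 2) V) (hW : ∀ v, v ∈ W ↔ ∃ u ∈ U, v = φ u) :
    ∃ β : W →ₗ[ZMod 2] V →ₗ[ZMod 2] K, Lin β ∧
      ∀ (x y : S.G) (h : φ x ∈ W), ψ (β ⟨φ x, h⟩ (φ y)) = S.q x y := by
  have hφ1 : φ 1 = 0 := (hφ0 1).2 (one_q hS)
  have hdiff : ∀ u u', φ u = φ u' → ∀ y, S.q y u = S.q y u' := by
    intro u u' h y
    have h1 : φ (u * u') = 0 := by
      rw [hφa, h, ← hφa, hS.exp2, hφ1]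
    have h2 := (hφ0 _).1 h1 y
    rw [hS.qs2] at h2
    exact (hS.qs3 y u u').2 h2
  have wd : ∀ u u' g g', φ u = φ u' → φ g = φ g' → S.q u g = S.q u' g' := by
    intro u u' g g' h h'
    rw [hS.qs2 u g, hdiff u u' h g, hS.qs2 g u', hdiff g g' h' u']
  have hex : ∀ (w : W) (x : V), ∃ κ : K, ∀ u ∈ U, ∀ g, φ u = w → φ g = x → ψ κ = S.q u g := by
    intro w x
    obtain ⟨u0, hu0, hw0⟩ := (hW w).1 w.2
    obtain ⟨g0, rfl⟩ := hφs x
    obtain ⟨y, hy⟩ := (hU u0 hu0).1 g0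
    refine ⟨p y, fun u hu g h1 h2 => ?_⟩
    rw [hψ, ← hy]
    exact wd _ _ _ _ (hw0.symm.trans h1.symm) h2.symm
  choose b hb using hex
  have hadd2 : ∀ (w : W) (x x' : V), b w (x + x') = b w x + b w x' := by
    intro w x x'
    obtain ⟨u, hu, hwu⟩ := (hW w).1 w.2
    obtain ⟨g, rfl⟩ := hφs x
    obtain ⟨g', rfl⟩ := hφs x'
    obtain ⟨y, hy⟩ := hps (b w (φ g))
    obtain ⟨y', hy'⟩ := hps (b w (φ g'))
    have e1 : S.q u g = S.q a y := by rw [← hψ, hy, hb w (φ g) u hu g hwu.symm rfl]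
    have e2 : S.q u g' = S.q a y' := by rw [← hψ, hy', hb w (φ g') u hu g' hwu.symm rfl]
    apply hψi
    rw [← hy, ← hy', ← hpa, hψ, hb w _ u hu (g * g') hwu.symm (hφa g g')]
    exact (hU u hu).2 _ _ _ _ e1 e2
  have hadd1 : ∀ (w w' : W) (x : V), b (w + w') x = b w x + b w' x := by
    intro w w' x
    obtain ⟨u, hu, hwu⟩ := (hW w).1 w.2
    obtain ⟨v, hv, hwv⟩ := (hW w').1 w'.2
    obtain ⟨g, rfl⟩ := hφs x
    obtain ⟨y, hy⟩ := hps (b w (φ g))
    obtain ⟨y', hy'⟩ := hps (b w' (φ g))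
    have e1 : S.q u g = S.q a y := by rw [← hψ, hy, hb w (φ g) u hu g hwu.symm rfl]
    have e2 : S.q v g = S.q a y' := by rw [← hψ, hy', hb w' (φ g) v hv g hwv.symm rfl]
    apply hψi
    rw [← hy, ← hy', ← hpa, hψ, hb (w + w') _ (u * v) (U.mul_mem hu hv) g
      (by rw [hφa, ← hwu, ← hwv]; rfl) rfl]
    obtain ⟨w0, -, hsub, hind⟩ := hw g
    obtain ⟨t, ht⟩ := hsub.1 y
    obtain ⟨t', ht'⟩ := hsub.1 y'
    have e3 := hsub.2 _ _ _ _ ht ht'
    obtain ⟨z1, hz1, hz1'⟩ := hind t u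
    obtain ⟨z2, hz2, hz2'⟩ := hind t' v
    have f1 : S.q (w0 * g) z1 = S.zero := by
      rw [hS.qs2]
      refine (hS.qs3 z1 w0 g).1 ?_
      rw [hS.qs2 z1 w0, hS.qs2 z1 g, hz1, hz1', ← ht, ← e1, hS.qs2]
    have f2 : S.q (w0 * g) z2 = S.zero := by
      rw [hS.qs2]
      refine (hS.qs3 z2 w0 g).1 ?_
      rw [hS.qs2 z2 w0, hS.qs2 z2 g, hz2, hz2', ← ht', ← e2, hS.qs2]
    have f3 : S.q (z1 * z2) w0 = S.q (z1 * z2) g := by
      refine (hS.qs3 _ _ _).2 ?_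
      rw [hS.qs2]
      exact q_mul_zero hS f1 f2
    calc S.q (u * v) g = S.q g (u * v) := hS.qs2 _ _
      _ = S.q g (z1 * z2) := (q_mul_congr hS hz1' hz2').symm
      _ = S.q (z1 * z2) g := hS.qs2 _ _
      _ = S.q (z1 * z2) w0 := f3.symm
      _ = S.q w0 (z1 * z2) := hS.qs2 _ _
      _ = S.q w0 (t * t') := q_mul_congr hS hz1 hz2
      _ = S.q a (y * y') := e3.symm
  let β1 : W → V →ₗ[ZMod 2] K := fun w =>
    (AddMonoidHom.mk' (b w) (hadd2 w)).toZModLinearMap 2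
  let β : W →ₗ[ZMod 2] V →ₗ[ZMod 2] K :=
    (AddMonoidHom.mk' β1 (fun w w' => LinearMap.ext fun x => hadd1 w w' x)).toZModLinearMap 2
  have hβ : ∀ w x, β w x = b w x := fun _ _ => rfl
  refine ⟨β, ⟨?_, ?_, ?_⟩, ?_⟩
  · intro w w'
    obtain ⟨u, hu, hwu⟩ := (hW w).1 w.2
    obtain ⟨v, hv, hwv⟩ := (hW w').1 w'.2
    apply hψi
    rw [hβ, hβ, hb w _ u hu v hwu.symm hwv.symm, hb w' _ v hv u hwv.symm hwu.symm, hS.qs2]
  · intro w h
    obtain ⟨u, hu, hwu⟩ := (hW w).1 w.2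
    apply Subtype.ext
    rw [hwu]
    refine (hφ0 u).2 fun y => ?_
    rw [← hb w (φ y) u hu y hwu.symm rfl, ← hβ, h, hψ0]
  · rintro w w' α ⟨x, hx⟩ ⟨y, hy⟩
    obtain ⟨u, hu, hwu⟩ := (hW w).1 w.2
    obtain ⟨v, hv, hwv⟩ := (hW w').1 w'.2
    obtain ⟨g, rfl⟩ := hφs x
    obtain ⟨g', rfl⟩ := hφs y
    have hwuv : φ (u * v) = ((w + w' : W) : V) := by
      rw [hφa, ← hwu, ← hwv]
      rfl
    have e1 : ψ α = S.q u g := by rw [← hx, hβ, hb w _ u hu g hwu.symm rfl]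
    have e2 : ψ α = S.q (u * v) g' := by
      rw [← hy, hβ, hb (w + w') _ (u * v) (U.mul_mem hu hv) g' hwuv rfl]
    obtain ⟨z, hz, hz'⟩ := hS.qs4 _ _ _ _ (e1.symm.trans e2)
    have e3 : S.q z u = S.q z (u * v) := by
      rw [hS.qs2 z u, hS.qs2 z (u * v), ← hz, ← hz', ← e1, ← e2]
    have e4 : S.q z v = S.zero := by
      have h1 := (hS.qs3 z u (u * v)).1 e3
      rwa [← mul_assoc, hS.exp2, one_mul] at h1
    refine ⟨φ z, ?_, ?_⟩
    · apply hψi
      rw [hβ, hb w' _ v hv z hwv.symm rfl, hψ0, hS.qs2, e4]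
    · apply hψi
      rw [hβ, hb w _ u hu z hwu.symm rfl, ← hz, ← e1]
  · intro x y h
    obtain ⟨u, hu, hxu⟩ := (hW _).1 h
    rw [hβ, hb ⟨φ x, h⟩ (φ y) u hu y hxu.symm rfl]
    exact wd _ _ _ _ hxu.symm rfl

/-- QB-A2 -/
theorem t_A2 : Pool.Agent.Y920.QB.S_A2 := by
  intro S hS hfin U a hU hw
  have hR : ∀ x : S.G ⧸ Rad hS, x * x = 1 := by
    intro x
    obtain ⟨g, rfl⟩ := QuotientGroup.mk_surjective x
    rw [← QuotientGroup.mk_mul, hS.exp2, QuotientGroup.mk_one]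
  have hD : ∀ x : S.G ⧸ Dd hS a, x * x = 1 := by
    intro x
    obtain ⟨g, rfl⟩ := QuotientGroup.mk_surjective x
    rw [← QuotientGroup.mk_mul, hS.exp2, QuotientGroup.mk_one]
  letI mV : Module (ZMod 2) (Additive (S.G ⧸ Rad hS)) := AddCommGroup.zmodModule (n := 2) (by
    intro x
    rw [two_nsmul]
    exact hR x.toMul)
  letI mK : Module (ZMod 2) (Additive (S.G ⧸ Dd hS a)) := AddCommGroup.zmodModule (n := 2) (by
    intro x
    rw [two_nsmul]
    exact hD x.toMul)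
  have fV : Finite (Additive (S.G ⧸ Rad hS)) := inferInstanceAs (Finite (S.G ⧸ Rad hS))
  have fK : Finite (Additive (S.G ⧸ Dd hS a)) := inferInstanceAs (Finite (S.G ⧸ Dd hS a))
  set φ : S.G → Additive (S.G ⧸ Rad hS) := fun g => Additive.ofMul (QuotientGroup.mk g) with hφ
  set p : S.G → Additive (S.G ⧸ Dd hS a) := fun g => Additive.ofMul (QuotientGroup.mk g) with hp
  have hφs : Function.Surjective φ := fun x => QuotientGroup.mk_surjective x.toMul
  have hps : Function.Surjective p := fun x => QuotientGroup.mk_surjective x.toMul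
  have hφa : ∀ x y, φ (x * y) = φ x + φ y := fun x y => rfl
  have hpa : ∀ x y, p (x * y) = p x + p y := fun x y => rfl
  have hφ0 : ∀ x, φ x = 0 ↔ ∀ y, S.q x y = S.zero := by
    intro x
    rw [← mem_Rad hS, ← QuotientGroup.eq_one_iff]
    rfl
  have hp0 : ∀ x y, p x = p y ↔ S.q a x = S.q a y := by
    intro x y
    have h1 : p x = p y ↔ (QuotientGroup.mk x : S.G ⧸ Dd hS a) = QuotientGroup.mk y := Iff.rfl
    rw [h1, QuotientGroup.eq, mem_Dd, inv_eq hS, hS.qs3]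
  obtain ⟨ψ, hψ⟩ : ∃ ψ : Additive (S.G ⧸ Dd hS a) → S.Q, ∀ y, ψ (p y) = S.q a y := by
    refine ⟨fun k => S.q a (Function.surjInv hps k), fun y => ?_⟩
    exact (hp0 _ _).1 (Function.surjInv_eq hps _)
  have hψi : Function.Injective ψ := by
    intro x y h
    obtain ⟨x, rfl⟩ := hps x
    obtain ⟨y, rfl⟩ := hps y
    rw [hψ, hψ] at h
    exact (hp0 _ _).2 h
  have hψ0 : ψ 0 = S.zero := by
    have h1 : (0 : Additive (S.G ⧸ Dd hS a)) = p 1 := rfl
    rw [h1, hψ, q_one hS]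
  let W : Submodule (ZMod 2) (Additive (S.G ⧸ Rad hS)) :=
    { carrier := {v | ∃ u ∈ U, v = φ u}
      add_mem' := by
        rintro _ _ ⟨u, hu, rfl⟩ ⟨v, hv, rfl⟩
        exact ⟨u * v, U.mul_mem hu hv, (hφa u v).symm⟩
      zero_mem' := ⟨1, U.one_mem, rfl⟩
      smul_mem' := by
        rintro c _ ⟨u, hu, rfl⟩
        have hc : c = 0 ∨ c = 1 := by
          revert c
          decide
        rcases hc with rfl | rfl
        · rw [zero_smul]
          exact ⟨1, U.one_mem, rfl⟩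
        · rw [one_smul]
          exact ⟨u, hu, rfl⟩ }
  have hW : ∀ v, v ∈ W ↔ ∃ u ∈ U, v = φ u := fun v => Iff.rfl
  obtain ⟨β, hβ, hval⟩ := form hS U a hU hw _ _ φ hφs hφa hφ0 p hps hpa ψ hψ hψi hψ0 W hW
  refine ⟨_, _, _, mV, fV, _, mK, fK, W, β, φ, ψ, hβ, hφs, hφa, hφ0, fun x => hW (φ x), hψi, hψ0,
    hval, ?_, ?_⟩
  · have h1 : Set.range (S.q a) = Set.range ψ := by
      ext t
      constructor
      · rintro ⟨y, rfl⟩
        exact ⟨p y, hψ y⟩
      · rintro ⟨k, rfl⟩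
        obtain ⟨y, rfl⟩ := hps k
        exact ⟨y, (hψ y).symm⟩
    rw [h1, ← Nat.card_range_of_injective hψi, Nat.card_coe_set_eq]
  · set W' : Subgroup (S.G ⧸ Rad hS) := U.map (QuotientGroup.mk' (Rad hS)) with hW'
    have h1 : Nat.card (Additive (S.G ⧸ Rad hS)) = Nat.card (S.G ⧸ Rad hS) :=
      Nat.card_congr Additive.toMul
    have h2 : Nat.card W = Nat.card W' := by
      refine Nat.card_congr (Equiv.subtypeEquiv Additive.toMul fun v => ?_)
      change (∃ u ∈ U, v = φ u) ↔ _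
      rw [hW', Subgroup.mem_map]
      constructor
      · rintro ⟨u, hu, rfl⟩
        exact ⟨u, hu, rfl⟩
      · rintro ⟨u, hu, h⟩
        exact ⟨u, hu, h.symm⟩
    have h3 : W'.index ∣ U.index := by
      rw [← Subgroup.index_comap_of_surjective W' (QuotientGroup.mk'_surjective (Rad hS))]
      exact Subgroup.index_dvd_of_le (Subgroup.le_comap_map _ _)
    have h4 : 0 < U.index := Nat.pos_of_ne_zero Subgroup.index_ne_zero_of_finite
    rw [h1, h2, ← W'.card_mul_index]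
    exact Nat.mul_le_mul_left _ (Nat.le_of_dvd h4 h3)

end Pool.Agent.Y362.QB
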